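import Mathlib
import Pool.Agent.BA12.Final

/-!
# Sum-free sets with an even least element: when the bound `⌊(n-p)/2⌋ + 1` is attained

In the whole open range (`p` even, `5 p < n + 2`) the bound is attained exactly for `n = 5 p - 1`
and for the two pairs `(n, p) = (11, 2), (13, 2)`.
-/

namespace Pool.Agent.Results.MP_6f69d0_co.BoundAttained

/-- `S` is sum-free: `x + y ∉ S` for all `x, y ∈ S`. -/
def SumFree (S : Finset ℕ) : Prop := ∀ x ∈ S, ∀ y ∈ S, x + y ∉ S

/-- `IsG n p g`: the largest size of a sum-free `S ⊆ {1, …, n}` with `min S = p` is `g`. -/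
def IsG (n p g : ℕ) : Prop :=
  IsGreatest {k : ℕ | ∃ S : Finset ℕ, S ⊆ Finset.Icc 1 n ∧ SumFree S ∧
    IsLeast (S : Set ℕ) p ∧ S.card = k} g

theorem result : ∀ n p : ℕ, 0 < p → Even p → 5 * p < n + 2 →
    (IsG n p ((n - p) / 2 + 1) ↔ n + 1 = 5 * p ∨ (p = 2 ∧ (n = 11 ∨ n = 13))) := by
  intro n p hp hpe hn
  constructor
  · rintro ⟨⟨S, h1, h2, h3, h4⟩, -⟩
    by_contra hcon
    push Not at hcon
    have := BA12.card_le_half n p hp hpe (by omega) (by
      rintro ⟨hp2, hn2⟩
      have := hcon.2 hp2
      omega) S h1 h2 h3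
    omega
  · rintro (h | ⟨rfl, rfl | rfl⟩)
    · have e : (n - p) / 2 + 1 = 2 * p := by
        obtain ⟨t, ht⟩ := hpe
        omega
      rw [e]
      constructor
      · obtain ⟨S, h1, h2, h3, h4⟩ := MinEven.lower p n hp (by omega)
        exact ⟨S, h1, h2, h3, h4⟩
      · rintro k ⟨S, h1, h2, h3, rfl⟩
        exact MinEven.upper_final n p hp hpe (by omega) S h1 h2 h3
    · constructor
      · refine ⟨{2, 6, 7, 10, 11}, by decide, by unfold SumFree; decide, ?_, by decide⟩
        constructor
        · simp
        · intro x hx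
          simp only [Finset.coe_insert, Finset.coe_singleton, Set.mem_insert_iff,
            Set.mem_singleton_iff] at hx
          omega
      · rintro k ⟨S, h1, h2, h3, rfl⟩
        exact BA12.srch_bound 2 9 11 5 (by norm_num) (by norm_num) BA12.s_2_11 S h1 h2 h3
    · constructor
      · refine ⟨{2, 3, 7, 8, 12, 13}, by decide, by unfold SumFree; decide, ?_, by decide⟩
        constructor
        · simp
        · intro x hx
          simp only [Finset.coe_insert, Finset.coe_singleton, Set.mem_insert_iff,
            Set.mem_singleton_iff] at hx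
          omega
      · rintro k ⟨S, h1, h2, h3, rfl⟩
        exact BA12.srch_bound 2 11 13 6 (by norm_num) (by norm_num) BA12.s_2_13 S h1 h2 h3

end Pool.Agent.Results.MP_6f69d0_co.BoundAttained
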