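import Mathlib
import Pool.Agent.H71M.Main

/-!
# Sum-free sets with an even least element: the plateau

For even `p` and `5 p - 1 ≤ n ≤ 6 p - 6` the largest sum-free subset of `[1, n]` with least
element `p` has exactly `2 p` elements.
-/

namespace Pool.Agent.Results.MP_6f69d0_co.Plateau

/-- `S` is sum-free: `x + y ∉ S` for all `x, y ∈ S`. -/
def SumFree (S : Finset ℕ) : Prop := ∀ x ∈ S, ∀ y ∈ S, x + y ∉ S

/-- `IsG n p g`: the largest size of a sum-free `S ⊆ {1, …, n}` with `min S = p` is `g`. -/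
def IsG (n p g : ℕ) : Prop :=
  IsGreatest {k : ℕ | ∃ S : Finset ℕ, S ⊆ Finset.Icc 1 n ∧ SumFree S ∧
    IsLeast (S : Set ℕ) p ∧ S.card = k} g

theorem result : ∀ n p : ℕ, 0 < p → Even p → 5 * p ≤ n + 1 →
    (n + 6 ≤ 6 * p ∨ 3 * n + 1 < 16 * p) → IsG n p (2 * p) := by
  intro n p hp hpe hn1 hn2
  constructor
  · obtain ⟨S, h1, h2, h3, h4⟩ := MinEven.lower p n hp (by omega)
    exact ⟨S, h1, h2, h3, h4⟩
  · rintro k ⟨S, h1, h2, h3, rfl⟩
    exact MinEven.upper_final n p hp hpe hn2 S h1 h2 h3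

end Pool.Agent.Results.MP_6f69d0_co.Plateau
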